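import Pool.Agent.RTD.AP
import Pool.Agent.RTD.EL3

/-!
MP_c1b589_lc (rotation distance).  An approximation algorithm for the rotation distance with ratio
`2 - 1/(4D+2)` if every vertex of the two triangulations is in at most `D` triangles, and
`2 - 1/(4s)` for all pairs of trees with at most `s^2` nodes.
-/

namespace Pool.Agent.Results.MP_c1b589_lc.Approx

open RTD

theorem result (S T : BT) (h : T.size = S.size) :
    Path (rd S T) S T ∧ (∃ c, Greedy S T c) ∧
    ∀ c, Greedy S T c →
      Path c S T ∧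
      (∀ D : ℕ, (∀ v, fan S v ≤ D) → (∀ v, fan T v ≤ D) →
        (4 * D + 2) * c ≤ (8 * D + 3) * rd S T) ∧
      (∀ s : ℕ, 1 ≤ s → S.size ≤ s ^ 2 → 4 * s * c ≤ (8 * s - 1) * rd S T) := by
  refine ⟨path_rd' h, greedy_exists S T h, fun c hc => ⟨greedy_path S T c hc h, ?_, ?_⟩⟩
  · intro D hS hT
    exact greedy_bounded S T c D hc h hS hT (rd S T) (path_rd' h)
  · intro s hs hq
    exact greedy_all S T c s hc h hs hq (rd S T) (path_rd' h)

end Pool.Agent.Results.MP_c1b589_lc.Approx
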