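import Pool.Agent.RTD.RD
import Pool.Agent.RTD.EL3

/-!
MP_c1b589_lc (rotation distance).  Structure of the pairs of trees whose rotation distance is close
to the trivial lower bound: the triangulations are covered by few fans.
-/

namespace Pool.Agent.Results.MP_c1b589_lc.FanCover

open RTD

theorem result (S T : BT) (hq : 2 ≤ S.size) (h : T.size = S.size) (hred : Reduced S T) :
    Path (rd S T) S T ∧
    ∃ w : ℕ, rd S T + 1 = S.size + w ∧ ∃ A B : Finset ℕ, A.card + B.card + 2 ≤ 8 * w ∧
      S.size + 1 ≤ 3 * w + ∑ v ∈ A, fan S v + ∑ v ∈ B, fan T v :=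
  ⟨path_rd' h, fan_cover S T (rd S T) hq h hred (path_rd' h)⟩

end Pool.Agent.Results.MP_c1b589_lc.FanCover
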