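import Pool.Agent.RTD.KR2

/-!
MP_c1b589_lc (rotation distance).  A kernel of quadratic size for the rotation distance above the
trivial lower bound.
-/

namespace Pool.Agent.Results.MP_c1b589_lc.Kernel

open RTD

theorem result (k : ℕ) (S T : BT) (h : T.size = S.size) :
    Path (rd S T) S T ∧ dl S T ≤ rd S T ∧ (∃ S' T', Kern k S T S' T') ∧
    ∀ S' T', Kern k S T S' T' →
      T'.size = S'.size ∧ S'.size ≤ S.size ∧
      (∀ j ≤ k, (rd S T ≤ dl S T + j ↔ rd S' T' ≤ dl S' T' + j)) ∧
      (rd S T ≤ dl S T + k → S'.size ≤ (8 * k + 19) * k) := by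
  refine ⟨path_rd' h, dl_le_rd h, kern_exists k S T h, fun S' T' hk => ?_⟩
  exact ⟨(kern_size hk h).1, (kern_size hk h).2, kern_iff hk h, kern_small hk h⟩

end Pool.Agent.Results.MP_c1b589_lc.Kernel
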